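import Mathlib
import Pool.Agent.V11160.JU.E
set_option autoImplicit false

/-!
# Monotone transitive functions closed under coordinatewise operations

Let `f` be a monotone, non-constant Boolean function of `n` variables, invariant under a transitive
group of permutations of the variables.  Suppose that `{f = 1}` is closed under `m`-ary Boolean
operations `g_l`, one for each coordinate `l`, such that no `g_l` lies above a projection (if all
`g_l` lie above one projection, every monotone function has this closure property).  Then `f` has an
input with at least `n / (m - 1)` sensitive coordinates, and every decision tree for `f` has depth at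
least `n / (m - 1)`.  The same holds for `{f = 0}` and operations not below a projection.
-/

namespace Pool.Agent.Results.MP_d4e2f9_lc.ClosedUnderOperations

open Finset

/-- `f` is computed by a decision tree of depth at most `k` (as in the frozen statement): every
predicate which holds for constant functions at all depths and is closed under querying a variable
holds for `k` and `f`. -/
def DepthLe {n : ℕ} (k : ℕ) (f : (Fin n → Bool) → Bool) : Prop :=
  ∀ P : ℕ → ((Fin n → Bool) → Bool) → Prop,
    (∀ (m : ℕ) (g : (Fin n → Bool) → Bool), (∀ x y, g x = g y) → P m g) →
    (∀ (m : ℕ) (g : (Fin n → Bool) → Bool) (i : Fin n),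
       P m (fun x => g (Function.update x i false)) →
       P m (fun x => g (Function.update x i true)) → P (m + 1) g) →
    P k f

/-- `f` is invariant under a transitive group of permutations of the variables. -/
def Transitive {n : ℕ} (f : (Fin n → Bool) → Bool) : Prop :=
  ∀ i j : Fin n, ∃ σ : Equiv.Perm (Fin n), σ i = j ∧ ∀ x : Fin n → Bool, f (x ∘ σ) = f x

/-- `{f = b}` is closed under the operations `g l` applied at the coordinates `l`. -/
def Closed {n m : ℕ} (g : Fin n → (Fin m → Bool) → Bool) (f : (Fin n → Bool) → Bool)
    (b : Bool) : Prop :=
  ∀ w : Fin m → Fin n → Bool, (∀ j, f (w j) = b) → f (fun l => g l fun j => w j l) = b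

/-- `g` takes the value `!b`, and does so at some `a` with `a i = b`, for each `i`: for `b = true`
this says that `g` is not constant `true` and lies above no projection, for `b = false` that it is
not constant `false` and lies below no projection. -/
def Free {m : ℕ} (g : (Fin m → Bool) → Bool) (b : Bool) : Prop :=
  (∃ a, g a = !b) ∧ ∀ i, ∃ a : Fin m → Bool, a i = b ∧ g a = !b

theorem result {n m : ℕ} (f : (Fin n → Bool) → Bool) (hmono : Monotone f)
    (hne : ∃ x y, f x ≠ f y) (hT : Transitive f) (b : Bool)
    (g : Fin n → (Fin m → Bool) → Bool) (hg : ∀ l, Free (g l) b) (hcl : Closed g f b) :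
    (∃ x, n ≤ (m - 1) * (univ.filter fun j => f (Function.update x j (!x j)) ≠ f x).card) ∧
    ∀ k, DepthLe k f → n ≤ (m - 1) * k := by
  have key : ∃ x, n ≤ (m - 1) * (V11160.JU.E.sens f x).card := by
    cases b
    · exact V11160.JU.E.main_dual f hmono hne hT g (fun l => (hg l).1) (fun l i => (hg l).2 i) hcl
    · exact V11160.JU.E.main f hmono hne hT g (fun l => (hg l).1) (fun l i => (hg l).2 i) hcl
  obtain ⟨x, hx⟩ := key
  exact ⟨⟨x, hx⟩, fun k hk => hx.trans (Nat.mul_le_mul_left _ (V11160.JU.E.sens_le hk x))⟩

end Pool.Agent.Results.MP_d4e2f9_lc.ClosedUnderOperations
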