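import Mathlib
import Pool.Agent.V1118.ADW
import Pool.Agent.V11285.W8

/-!
# Weak evasiveness for all numbers of variables in windows (MP_d4e2f9_lc)

Let `v_n ≥ 1` tend to infinity, `0 ≤ L_n ≤ v_n` for large `n`, and `∑ L_n (log v_n) ^ (-δ) < ∞` for
some `δ > 0`; for example `v_n = θ ^ n`, `θ > 1`, `L_n = n ^ A`.  Then for almost all real `α > 0` and
all `ε > 0`: for all large `n` and ALL integers `m ≥ 1` with `|m - α v_n| ≤ L_n`, every non-constant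
monotone Boolean function of `m` variables which is invariant under a transitive group of order at
most `m exp ((log m) ^ (2/5))` has decision tree complexity at least `m ^ (1 - ε)`.

This is the bound of the weak evasiveness conjecture, without exceptional numbers of variables in
these windows.
-/

set_option autoImplicit false

open Filter Topology MeasureTheory

namespace Pool.Agent.Results.MP_d4e2f9_lc.DegreesInWindows

open AlmostAllDegrees (DepthLe Trans)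

/-- Every non-constant monotone function of `n` variables which is invariant under a transitive group
of order at most `n exp ((log n) ^ (2/5))` has decision tree complexity at least `n ^ (1 - ε)`. -/
def Weak (ε : ℝ) (n : ℕ) : Prop :=
  ∀ G : Subgroup (Equiv.Perm (Fin n)), Trans G →
    (Nat.card G : ℝ) ≤ n * Real.exp ((Real.log n) ^ (2 / 5 : ℝ)) →
    ∀ f : (Fin n → Bool) → Bool, Monotone f → (∃ x y, f x ≠ f y) →
      (∀ σ ∈ G, ∀ x : Fin n → Bool, f (x ∘ σ) = f x) →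
      ∀ k : ℕ, DepthLe k f → (n : ℝ) ^ (1 - ε) ≤ k

theorem weak_mono {ε ε' : ℝ} (h : ε' ≤ ε) {n : ℕ} (hn : 1 ≤ n) (hw : Weak ε' n) : Weak ε n := by
  intro G h1 h2 f h3 h4 h5 k hk
  refine le_trans ?_ (hw G h1 h2 f h3 h4 h5 k hk)
  exact Real.rpow_le_rpow_of_exponent_le (by exact_mod_cast hn) (by linarith)

/-- a power of the logarithm -/
theorem exp_le (δ t : ℝ) (ht : 1 ≤ t) :
    Real.exp (-t ^ (2 / 5 : ℝ)) ≤ (⌈5 * δ / 2⌉₊.factorial : ℝ) * t ^ (-δ) := by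
  set N : ℕ := ⌈5 * δ / 2⌉₊ with hN
  have ht0 : 0 < t := by linarith
  set s : ℝ := t ^ (2 / 5 : ℝ) with hs
  have hs1 : 1 ≤ s := Real.one_le_rpow ht (by norm_num)
  have h1 := Real.pow_div_factorial_le_exp s (by linarith) N
  have h2 : t ^ δ ≤ s ^ N := by
    have : t ^ δ = s ^ (5 * δ / 2) := by
      rw [hs, ← Real.rpow_mul ht0.le]
      congr 1
      ring
    rw [this, ← Real.rpow_natCast]
    exact Real.rpow_le_rpow_of_exponent_le hs1 (Nat.le_ceil _)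
  have hf : (0 : ℝ) < (N.factorial : ℝ) := by exact_mod_cast Nat.factorial_pos N
  rw [div_le_iff₀ hf] at h1
  rw [Real.exp_neg, Real.rpow_neg ht0.le, ← div_eq_mul_inv, inv_eq_one_div,
    div_le_div_iff₀ (Real.exp_pos _) (Real.rpow_pos_of_pos ht0 _), one_mul]
  linarith

/-- the count with a power of `log X` -/
theorem count (ε δ : ℝ) (hε : 0 < ε) (hδ : 0 < δ) : ∃ C : ℝ, ∀ X : ℕ, 3 ≤ X →
    ({d : ℤ | d.natAbs ≤ X ∧ (0 < d ∧ ¬ Weak ε d.natAbs)}.ncard : ℝ) ≤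
      C * X * Real.log X ^ (-δ) := by
  obtain ⟨x0, hx0⟩ := Pool.Agent.V1118.ADW.few ε hε
  set X1 : ℕ := max x0 3 with hX1
  refine ⟨(⌈5 * δ / 2⌉₊.factorial : ℝ) + (Real.log X1) ^ δ, fun X hX => ?_⟩
  have hX3 : (3 : ℝ) ≤ X := by exact_mod_cast hX
  have hX13 : (3 : ℝ) ≤ X1 := by exact_mod_cast le_max_right x0 3
  have hl : 1 ≤ Real.log X := by
    rw [Real.le_log_iff_exp_le (by linarith)]
    have := Real.exp_one_lt_d9
    linarith
  have hp : 0 ≤ (Real.log X) ^ (-δ) := Real.rpow_nonneg (by linarith) _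
  have hl1 : 0 ≤ (Real.log X1) ^ δ := Real.rpow_nonneg (Real.log_nonneg (by linarith)) _
  have hfin : {n : ℕ | 1 ≤ n ∧ n ≤ X ∧ ¬ Weak ε n}.Finite :=
    (Set.finite_Icc 1 X).subset fun n hn => ⟨hn.1, hn.2.1⟩
  have hle : {d : ℤ | d.natAbs ≤ X ∧ (0 < d ∧ ¬ Weak ε d.natAbs)}.ncard ≤
      {n : ℕ | 1 ≤ n ∧ n ≤ X ∧ ¬ Weak ε n}.ncard := by
    refine Set.ncard_le_ncard_of_injOn (fun d : ℤ => d.natAbs) ?_ ?_ hfin
    · intro d hd
      have h1 : 0 < d := hd.2.1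
      exact ⟨by omega, hd.1, hd.2.2⟩
    · intro a ha b hb hab
      have h1 : 0 < a := ha.2.1
      have h2 : 0 < b := hb.2.1
      have h3 : a.natAbs = b.natAbs := hab
      omega
  have hle' : ({d : ℤ | d.natAbs ≤ X ∧ (0 < d ∧ ¬ Weak ε d.natAbs)}.ncard : ℝ) ≤
      ({n : ℕ | 1 ≤ n ∧ n ≤ X ∧ ¬ Weak ε n}.ncard : ℝ) := by exact_mod_cast hle
  refine hle'.trans ?_
  rcases le_or_gt X1 X with h | h
  · have h1 := hx0 X ((le_max_left _ _).trans h)
    refine h1.trans ?_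
    have h2 := exp_le δ (Real.log X) hl
    calc (X : ℝ) * Real.exp (-(Real.log X) ^ (2 / 5 : ℝ))
        ≤ X * ((⌈5 * δ / 2⌉₊.factorial : ℝ) * (Real.log X) ^ (-δ)) :=
          mul_le_mul_of_nonneg_left h2 (by linarith)
      _ = (⌈5 * δ / 2⌉₊.factorial : ℝ) * X * (Real.log X) ^ (-δ) := by ring
      _ ≤ ((⌈5 * δ / 2⌉₊.factorial : ℝ) + (Real.log X1) ^ δ) * X * (Real.log X) ^ (-δ) := by
          apply mul_le_mul_of_nonneg_right _ hp
          apply mul_le_mul_of_nonneg_right _ (by linarith)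
          linarith
  · have h3 : ({n : ℕ | 1 ≤ n ∧ n ≤ X ∧ ¬ Weak ε n}.ncard : ℝ) ≤ X := by
      have : {n : ℕ | 1 ≤ n ∧ n ≤ X ∧ ¬ Weak ε n}.ncard ≤ (Finset.Icc 1 X : Set ℕ).ncard :=
        Set.ncard_le_ncard (fun n hn => Finset.mem_coe.2 (Finset.mem_Icc.2 ⟨hn.1, hn.2.1⟩))
          (Finset.finite_toSet _)
      rw [Set.ncard_coe_finset, Nat.card_Icc, Nat.add_sub_cancel] at this
      exact_mod_cast this
    have h4 : (Real.log X) ^ δ ≤ (Real.log X1) ^ δ :=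
      Real.rpow_le_rpow (by linarith) (Real.log_le_log (by linarith) (by exact_mod_cast h.le)) hδ.le
    have h5 : (1 : ℝ) ≤ (Real.log X1) ^ δ * (Real.log X) ^ (-δ) := by
      have h6 : (Real.log X) ^ δ * (Real.log X) ^ (-δ) = 1 := by
        rw [← Real.rpow_add (by linarith), add_neg_cancel, Real.rpow_zero]
      calc (1 : ℝ) = (Real.log X) ^ δ * (Real.log X) ^ (-δ) := h6.symm
        _ ≤ _ := mul_le_mul_of_nonneg_right h4 hp
    have hf : (0 : ℝ) ≤ (⌈5 * δ / 2⌉₊.factorial : ℝ) := Nat.cast_nonneg _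
    calc ({n : ℕ | 1 ≤ n ∧ n ≤ X ∧ ¬ Weak ε n}.ncard : ℝ) ≤ X := h3
      _ = X * 1 := (mul_one _).symm
      _ ≤ X * ((Real.log X1) ^ δ * (Real.log X) ^ (-δ)) :=
          mul_le_mul_of_nonneg_left h5 (by linarith)
      _ = (Real.log X1) ^ δ * X * (Real.log X) ^ (-δ) := by ring
      _ ≤ ((⌈5 * δ / 2⌉₊.factorial : ℝ) + (Real.log X1) ^ δ) * X * (Real.log X) ^ (-δ) := by
          apply mul_le_mul_of_nonneg_right _ hp
          apply mul_le_mul_of_nonneg_right _ (by linarith)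
          linarith

/-- `v_n ≥ 1` tends to infinity, `L_n ≥ 0`, `L_n ≤ v_n` for large `n`, and the sum of the
`L_n (log v_n) ^ (-δ)` converges -/
def Thin (v L : ℕ → ℝ) (δ : ℝ) : Prop :=
  (∀ n, 1 ≤ v n) ∧ Tendsto v atTop atTop ∧ (∀ n, 0 ≤ L n) ∧ (∀ᶠ n in atTop, L n ≤ v n) ∧
    Summable fun n => L n * Real.log (v n) ^ (-δ)

/-- `θ ^ n`, windows of length `n ^ A` -/
theorem thin_exp {θ : ℝ} (hθ : 1 < θ) (A : ℕ) :
    Thin (fun n => θ ^ n) (fun n => (n : ℝ) ^ A) (A + 2) := by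
  have hl : 0 < Real.log θ := Real.log_pos hθ
  refine ⟨fun n => one_le_pow₀ hθ.le, tendsto_pow_atTop_atTop_of_one_lt hθ, fun n => by positivity,
    ?_, ?_⟩
  · have h := tendsto_pow_const_div_const_pow_of_one_lt A hθ
    filter_upwards [h.eventually_le_const (show (0 : ℝ) < 1 by norm_num)] with n hn
    rwa [div_le_one (by positivity)] at hn
  · have h2 : Summable fun n : ℕ => Real.log θ ^ (-((A : ℝ) + 2)) * (n : ℝ) ^ (-2 : ℝ) :=
      (Real.summable_nat_rpow.2 (by norm_num)).mul_left _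
    refine h2.congr fun n => ?_
    beta_reduce
    rcases Nat.eq_zero_or_pos n with rfl | hn
    · have hA : (0 : ℝ) < (A : ℝ) + 2 := by positivity
      rw [pow_zero, Real.log_one, Nat.cast_zero, Real.zero_rpow (by norm_num),
        Real.zero_rpow (by linarith), mul_zero, mul_zero]
    · have hn0 : (0 : ℝ) < n := by exact_mod_cast hn
      rw [Real.log_pow, Real.mul_rpow hn0.le hl.le]
      have : (n : ℝ) ^ A * ((n : ℝ) ^ (-((A : ℝ) + 2)) * Real.log θ ^ (-((A : ℝ) + 2))) =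
          Real.log θ ^ (-((A : ℝ) + 2)) * ((n : ℝ) ^ (A : ℝ) * (n : ℝ) ^ (-((A : ℝ) + 2))) := by
        rw [Real.rpow_natCast]
        ring
      rw [this, ← Real.rpow_add hn0]
      congr 2
      ring

theorem result :
    (∀ (v L : ℕ → ℝ) (δ : ℝ), 0 < δ → Thin v L δ → ∀ᵐ α : ℝ, 0 < α → ∀ ε : ℝ, 0 < ε →
      ∃ n₀ : ℕ, ∀ n : ℕ, n₀ ≤ n → ∀ m : ℕ, 1 ≤ m → |(m : ℝ) - α * v n| ≤ L n → Weak ε m) ∧
    (∀ θ : ℝ, 1 < θ → ∀ᵐ α : ℝ, 0 < α → ∀ (A : ℕ) (ε : ℝ), 0 < ε →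
      ∃ n₀ : ℕ, ∀ n : ℕ, n₀ ≤ n → ∀ m : ℕ, 1 ≤ m → |(m : ℝ) - α * θ ^ n| ≤ (n : ℝ) ^ A →
        Weak ε m) := by
  have hA : ∀ (v L : ℕ → ℝ) (δ : ℝ), 0 < δ → Thin v L δ → ∀ᵐ α : ℝ, 0 < α → ∀ ε : ℝ, 0 < ε →
      ∃ n₀ : ℕ, ∀ n : ℕ, n₀ ≤ n → ∀ m : ℕ, 1 ≤ m → |(m : ℝ) - α * v n| ≤ L n → Weak ε m := by
    intro v L δ hδ hT
    obtain ⟨h1, h2, h3, h4, h5⟩ := hT
    have key : ∀ j : ℕ, ∀ᵐ α : ℝ, 0 < α → ∃ n₀ : ℕ, ∀ n : ℕ, n₀ ≤ n → ∀ d : ℤ, d ≠ 0 →
        |(|(d : ℝ)|) - α * v n| ≤ L n → ¬ (0 < d ∧ ¬ Weak (1 / ((j : ℝ) + 1)) d.natAbs) := by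
      intro j
      obtain ⟨C, hC⟩ := count (1 / ((j : ℝ) + 1)) δ (by positivity) hδ
      exact Pool.Agent.V11285.W8.ae_thinZ _ hδ hC h1 h2 h3 h4 h5
    have hall := ae_all_iff.2 key
    filter_upwards [hall] with α hα hα0 ε hε
    obtain ⟨j, hj⟩ := exists_nat_one_div_lt hε
    obtain ⟨n₀, hn₀⟩ := hα j hα0
    refine ⟨n₀, fun n hn m hm hw => ?_⟩
    refine weak_mono hj.le hm ?_
    by_contra hcon
    refine hn₀ n hn (m : ℤ) (by omega) ?_ ⟨by omega, ?_⟩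
    · have : |(((m : ℤ) : ℝ))| = (m : ℝ) := by
        rw [Int.cast_natCast, abs_of_nonneg (Nat.cast_nonneg m)]
      rw [this]
      exact hw
    · rw [Int.natAbs_natCast]
      exact hcon
  refine ⟨hA, fun θ hθ => ?_⟩
  have hall := ae_all_iff.2 (fun A : ℕ => hA (fun n => θ ^ n) (fun n => (n : ℝ) ^ A) (A + 2)
    (by positivity) (thin_exp hθ A))
  filter_upwards [hall] with α hα hα0 A ε hε
  exact hα A hα0 ε hε

end Pool.Agent.Results.MP_d4e2f9_lc.DegreesInWindows
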