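import Mathlib
import Pool.Agent.V1118.ADW

/-!
# Weak evasiveness for all but `x exp (-(log x) ^ (2/5))` of the numbers of variables (MP_d4e2f9_lc)

For every `ε > 0` and all large `x`, all but at most `x exp (-(log x) ^ (2/5))` of the numbers `n ≤ x`
are such that every non-constant monotone Boolean function of `n` variables which is invariant under
a transitive group of order at most `n exp ((log n) ^ (2/5))` has decision tree complexity at least
`n ^ (1 - ε)`, which is the bound of the weak evasiveness conjecture.

The starting result `AlmostAllDegrees` has the stronger lower bound `n / (s log x) ^ K` for groups of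
order at most `s n`, outside a set of upper density `η`, where `K` depends on `η > 0`; so its
exceptional sets have positive density if `s` and `K` are bounded, and `s` has to be `x ^ o(1)`.

Proof. The argument of `AlmostAllDegrees` works for `n` if, for some `y`, the primes `p > y` dividing
`n` divide it only once, no divisor `d > 1` of `n t`, `t ≤ exp ((log x) ^ (2/5))`, is congruent to `1`
modulo such a `p`, and the `y`-smooth part of `n` is at most `x ^ ε`.  We take
`log y = (log x) ^ (9/20)` and use Rankin's bound for the smooth part.
-/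

set_option autoImplicit false

namespace Pool.Agent.Results.MP_d4e2f9_lc.FewExceptionalDegrees

open AlmostAllDegrees (DepthLe Trans)

/-- Every non-constant monotone function of `n` variables which is invariant under a transitive group
of order at most `n exp ((log n) ^ (2/5))` has decision tree complexity at least `n ^ (1 - ε)`. -/
def Weak (ε : ℝ) (n : ℕ) : Prop :=
  ∀ G : Subgroup (Equiv.Perm (Fin n)), Trans G →
    (Nat.card G : ℝ) ≤ n * Real.exp ((Real.log n) ^ (2 / 5 : ℝ)) →
    ∀ f : (Fin n → Bool) → Bool, Monotone f → (∃ x y, f x ≠ f y) →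
      (∀ σ ∈ G, ∀ x : Fin n → Bool, f (x ∘ σ) = f x) →
      ∀ k : ℕ, DepthLe k f → (n : ℝ) ^ (1 - ε) ≤ k

theorem result (ε : ℝ) (hε : 0 < ε) : ∃ x0 : ℕ, ∀ x : ℕ, x0 ≤ x →
    ({n : ℕ | 1 ≤ n ∧ n ≤ x ∧ ¬ Weak ε n}.ncard : ℝ) ≤
      x * Real.exp (-(Real.log x) ^ (2 / 5 : ℝ)) :=
  Pool.Agent.V1118.ADW.few ε hε

end Pool.Agent.Results.MP_d4e2f9_lc.FewExceptionalDegrees
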