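import Mathlib
import Pool.Agent.V1118.SpE
import Pool.Agent.Results.MP_d4e2f9_lc.AlmostAllDegrees

/-!
# Weak evasiveness for numbers of variables in the sparse sequences `⌊α n ^ c⌋`, `c > 1` (MP_d4e2f9_lc)

There is a function `K(η)` such that for all real `c > 1` and all `α > 0` outside a set of Hausdorff
dimension smaller than one the following holds for all `η > 0`, `s ≥ 1`: for `N` large, all but at most
`η N` of the numbers `m = ⌊α n ^ c⌋`, `n ≤ N`, are such that every non-constant monotone Boolean function
of `m` variables which is invariant under a transitive group of order at most `s m` has decision tree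
complexity at least `m / (s log m) ^ K(η)`.

The starting result `AlmostAllDegrees` is about almost all natural numbers `m`; its exceptional set
could contain a sparse sequence.
-/

set_option autoImplicit false

open Pool.Agent.V1118.SpD Pool.Agent.V1118.SpE
open Pool.Agent.Results.MP_d4e2f9_lc.AlmostAllDegrees (Bound)

namespace Pool.Agent.Results.MP_d4e2f9_lc.SparseDegrees

lemma mono (m s : ℕ) (B B' : ℝ) (_hB : 0 < B) (h : B ≤ B') (hb : Bound m s B) : Bound m s B' := by
  intro G hG hc f hf hne hinv k hk
  exact (hb G hG hc f hf hne hinv k hk).trans (mul_le_mul_of_nonneg_right h (Nat.cast_nonneg k))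

theorem result : ∃ K : ℝ → ℕ, ∀ c : ℝ, 1 < c → ∃ E : Set ℝ, dimH E < 1 ∧
    ∀ α : ℝ, 0 < α → α ∉ E → ∀ η : ℝ, 0 < η → ∀ s : ℕ, 1 ≤ s → ∃ N0 : ℕ, ∀ N : ℕ, N0 ≤ N →
      (along α c (fun m => ¬ Bound m s ((s * Real.log m) ^ K η)) N : ℝ) ≤ η * N :=
  orders_along Bound mono Pool.Agent.Results.MP_d4e2f9_lc.AlmostAllDegrees.result

end Pool.Agent.Results.MP_d4e2f9_lc.SparseDegrees
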